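import Mathlib
import Pool.Agent.Grz.E2

/-!
Terms over `ZMod p` with inversion, a while language over registers with values in `ZMod p` and
flat programs.
-/

set_option autoImplicit false

namespace Pool.Agent.ROrb

/-- Terms over `+`, `*`, `-`, inversion, `0` and `1` with variables in `ι`. -/
inductive Term (ι : Type) : Type
  | var (i : ι) : Term ι
  | zero : Term ι
  | one : Term ι
  | add (a b : Term ι) : Term ι
  | mul (a b : Term ι) : Term ι
  | neg (a : Term ι) : Term ι
  | inv (a : Term ι) : Term ι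

/-- The value of a term in `ZMod p`; the inverse of `0` is `0`. -/
def Term.eval {ι : Type} (p : ℕ) (x : ι → ZMod p) : Term ι → ZMod p
  | .var i => x i
  | .zero => 0
  | .one => 1
  | .add a b => a.eval p x + b.eval p x
  | .mul a b => a.eval p x * b.eval p x
  | .neg a => - a.eval p x
  | .inv a => (a.eval p x)⁻¹

/-- The map of `(ZMod p)^k` given by `k` terms. -/
def stepV {k : ℕ} (T : Fin k → Term (Fin k)) (p : ℕ) (x : Fin k → ZMod p) : Fin k → ZMod p :=
  fun i => (T i).eval p x

/-- The vector `(v, 0, .., 0)` with `m + 1` zeros. -/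
def pad {n : ℕ} (m p : ℕ) (v : Fin n → ℕ) : Fin (n + m + 1) → ZMod p :=
  fun i => if h : (i : ℕ) < n then (v ⟨i, h⟩ : ZMod p) else 0

/-- The register contents `v, 0, 0, ..`. -/
def regs {n : ℕ} (p : ℕ) (v : Fin n → ℕ) : ℕ → ZMod p :=
  fun i => if h : i < n then (v ⟨i, h⟩ : ZMod p) else 0

/-- Commands: `r := t`; sequences; `while r ≠ 0 do c`. -/
inductive Cmd : Type
  | set (r : ℕ) (t : Term ℕ) : Cmd
  | seq (c d : Cmd) : Cmd
  | loop (r : ℕ) (c : Cmd) : Cmd

/-- Execution of commands. -/
inductive Exec (p : ℕ) : Cmd → (ℕ → ZMod p) → (ℕ → ZMod p) → Prop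
  | set (r : ℕ) (t : Term ℕ) (σ : ℕ → ZMod p) :
      Exec p (.set r t) σ (Function.update σ r (t.eval p σ))
  | seq {c d : Cmd} {σ σ' σ'' : ℕ → ZMod p} :
      Exec p c σ σ' → Exec p d σ' σ'' → Exec p (.seq c d) σ σ''
  | done {r : ℕ} {c : Cmd} {σ : ℕ → ZMod p} : σ r = 0 → Exec p (.loop r c) σ σ
  | step {r : ℕ} {c : Cmd} {σ σ' σ'' : ℕ → ZMod p} : σ r ≠ 0 →
      Exec p c σ σ' → Exec p (.loop r c) σ' σ'' → Exec p (.loop r c) σ σ''

/-- Instructions of flat programs: `r := t`, then go to `a` if the (old) value of `s` is `0` and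
to `b` if not. -/
structure Instr where
  r : ℕ
  t : Term ℕ
  s : ℕ
  a : ℕ
  b : ℕ

/-- One step of a flat program; states are pairs of a program counter and register contents. -/
def stepF (p : ℕ) (P : ℕ → Instr) (x : ℕ × (ℕ → ZMod p)) : ℕ × (ℕ → ZMod p) :=
  (if x.2 (P x.1).s = 0 then (P x.1).a else (P x.1).b,
    Function.update x.2 (P x.1).r ((P x.1).t.eval p x.2))

/-- The number of instructions of the translation of a command. -/
def Cmd.len : Cmd → ℕ
  | .set _ _ => 1
  | .seq c d => c.len + d.len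
  | .loop _ c => c.len + 2

/-- The translation of a command, placed at the address `base`. -/
def Cmd.code : Cmd → ℕ → List Instr
  | .set r t, base => [⟨r, t, r, base + 1, base + 1⟩]
  | .seq c d, base => c.code base ++ d.code (base + c.len)
  | .loop r c, base => ⟨r, .var r, r, base + c.len + 2, base + 1⟩ ::
      (c.code (base + 1) ++ [⟨r, .var r, r, base, base⟩])

/-- The flat program: the translation of `c`, then a test of register `o`; address `c.len + 1` is
the accepting and `c.len + 2` the rejecting halting state. -/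
def prog (c : Cmd) (o : ℕ) (q : ℕ) : Instr :=
  (c.code 0 ++ ([⟨0, .var 0, o, c.len + 1, c.len + 2⟩] : List Instr)).getD q ⟨0, .var 0, 0, q, q⟩

end Pool.Agent.ROrb
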