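import Mathlib
import Pool.Agent.ROrb.Lang

/-!
Functions in `E2` are computed by commands.
-/

set_option autoImplicit false

namespace Pool.Agent.ROrb

open Pool.Agent.Grz MvPolynomial

/-- The commands computing a function: the polynomial bound and the specification. -/
private def CompBy {n : ℕ} (f : (Fin n → ℕ) → ℕ) (Q : MvPolynomial (Fin n) ℕ) : Prop :=
  ∀ (a : Fin n → ℕ) (o w : ℕ), (∀ i, a i < w) → o < w →
      ∃ c : Cmd, ∀ p : ℕ, p.Prime → ∀ v : Fin n → ℕ, MvPolynomial.eval v Q < p →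
        ∀ σ : ℕ → ZMod p, (∀ i, σ (a i) = (v i : ZMod p)) →
          ∃ σ' : ℕ → ZMod p, Exec p c σ σ' ∧ σ' o = (f v : ZMod p) ∧
            ∀ r, r < w → r ≠ o → σ' r = σ r

private theorem compBy_term {n : ℕ} (f : (Fin n → ℕ) → ℕ) (t : (Fin n → ℕ) → Term ℕ)
    (h : ∀ (a : Fin n → ℕ) (p : ℕ) (v : Fin n → ℕ) (σ : ℕ → ZMod p),
      (∀ i, σ (a i) = (v i : ZMod p)) → (t a).eval p σ = (f v : ZMod p)) :
    CompBy f 0 := by
  intro a o w _ _
  refine ⟨.set o (t a), fun p _ v _ σ hσ => ⟨_, Exec.set o (t a) σ, ?_, ?_⟩⟩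
  · rw [Function.update_self]
    exact h a p v σ hσ
  · intro r _ hr
    rw [Function.update_of_ne hr]

private theorem compBy_comp {n m : ℕ} {g : (Fin m → ℕ) → ℕ} {hs : Fin m → (Fin n → ℕ) → ℕ}
    {Qg : MvPolynomial (Fin m) ℕ} {Qh q : Fin m → MvPolynomial (Fin n) ℕ}
    (hg : CompBy g Qg) (hh : ∀ i, CompBy (hs i) (Qh i))
    (hq : ∀ i v, hs i v ≤ MvPolynomial.eval v (q i)) :
    CompBy (fun v => g (fun i => hs i v)) (∑ i, Qh i + bind₁ q Qg) := by
  intro a o w ha ho
  have hc : ∀ i : Fin m, ∃ c : Cmd, ∀ p : ℕ, p.Prime → ∀ v : Fin n → ℕ,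
      MvPolynomial.eval v (Qh i) < p →
        ∀ σ : ℕ → ZMod p, (∀ i, σ (a i) = (v i : ZMod p)) →
          ∃ σ' : ℕ → ZMod p, Exec p c σ σ' ∧ σ' (w + i) = (hs i v : ZMod p) ∧
            ∀ r, r < w + m → r ≠ w + i → σ' r = σ r := fun i =>
    hh i a (w + i) (w + m) (fun j => (ha j).trans_le (Nat.le_add_right w m))
      (by have := i.isLt; omega)
  have haux : ∀ j : ℕ, j ≤ m → ∃ c : Cmd, ∀ p : ℕ, p.Prime → ∀ v : Fin n → ℕ,
      (∀ i, MvPolynomial.eval v (Qh i) < p) →
        ∀ σ : ℕ → ZMod p, (∀ i, σ (a i) = (v i : ZMod p)) →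
          ∃ σ' : ℕ → ZMod p, Exec p c σ σ' ∧
            (∀ i : Fin m, (i : ℕ) < j → σ' (w + i) = (hs i v : ZMod p)) ∧
            ∀ r, r < w → σ' r = σ r := by
    intro j
    induction j with
    | zero =>
      intro _
      refine ⟨.set 0 (.var 0), fun p _ v _ σ _ => ⟨_, Exec.set 0 (.var 0) σ, ?_, ?_⟩⟩
      · intro i hi
        exact absurd hi (Nat.not_lt_zero _)
      · intro r _
        simp [Term.eval]
    | succ j ih =>
      intro hj
      obtain ⟨c, hc1⟩ := ih (by omega)
      obtain ⟨d, hd1⟩ := hc ⟨j, by omega⟩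
      refine ⟨.seq c d, fun p hp v hv σ hσ => ?_⟩
      obtain ⟨σ1, hE1, hval1, hr1⟩ := hc1 p hp v hv σ hσ
      obtain ⟨σ2, hE2, hval2, hr2⟩ := hd1 p hp v (hv _) σ1
        (fun i => by rw [hr1 _ (ha i)]; exact hσ i)
      refine ⟨σ2, Exec.seq hE1 hE2, ?_, ?_⟩
      · intro i hi
        rcases Nat.lt_or_ge (i : ℕ) j with h | h
        · rw [hr2 _ (by have := i.isLt; omega) (by simp only; omega)]
          exact hval1 i h
        · have : i = ⟨j, by omega⟩ := Fin.ext (by simp only; omega)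
          rw [this]
          exact hval2
      · intro r hr
        rw [hr2 r (by omega) (by simp only; omega)]
        exact hr1 r hr
  obtain ⟨c, hc1⟩ := haux m le_rfl
  obtain ⟨d, hd1⟩ := hg (fun i => w + i) o (w + m) (fun i => by have := i.isLt; omega) (by omega)
  refine ⟨.seq c d, fun p hp v hv σ hσ => ?_⟩
  rw [map_add, map_sum, eval_bind] at hv
  obtain ⟨σ1, hE1, hval1, hr1⟩ := hc1 p hp v (fun i => lt_of_le_of_lt (le_trans
    (Finset.single_le_sum (f := fun i => MvPolynomial.eval v (Qh i))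
      (fun _ _ => Nat.zero_le _) (Finset.mem_univ i)) (Nat.le_add_right _ _)) hv) σ hσ
  obtain ⟨σ2, hE2, hval2, hr2⟩ := hd1 p hp (fun i => hs i v)
    (lt_of_le_of_lt (le_trans (eval_mono Qg fun i => hq i v) (Nat.le_add_left _ _)) hv) σ1
    (fun i => hval1 i i.isLt)
  refine ⟨σ2, Exec.seq hE1 hE2, hval2, ?_⟩
  intro r hr hro
  rw [hr2 r (by omega) hro]
  exact hr1 r hr

private theorem compBy_limrec {n : ℕ} {g : (Fin n → ℕ) → ℕ} {h : (Fin (n + 2) → ℕ) → ℕ}
    {F : (Fin (n + 1) → ℕ) → ℕ}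
    {Qg : MvPolynomial (Fin n) ℕ} {Qh : MvPolynomial (Fin (n + 2)) ℕ}
    {B : MvPolynomial (Fin (n + 1)) ℕ}
    (hg : CompBy g Qg) (hh : CompBy h Qh) (hB : ∀ v, F v ≤ MvPolynomial.eval v B)
    (h0 : ∀ v : Fin n → ℕ, F (Matrix.vecCons 0 v) = g v)
    (hs : ∀ (v : Fin n → ℕ) (y : ℕ), F (Matrix.vecCons (y + 1) v) =
        h (Matrix.vecCons (F (Matrix.vecCons y v)) (Matrix.vecCons y v))) :
    CompBy F (X 0 + bind₁ (fun i : Fin n => X i.succ) Qg +
      bind₁ (Fin.cons B (fun i : Fin (n + 1) => X i)) Qh) := by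
  intro a o w ha ho
  obtain ⟨cg, hcg⟩ := hg (fun i => a i.succ) w (w + 4) (fun i => (ha _).trans (by omega))
    (by omega)
  obtain ⟨ch, hch⟩ := hh (Fin.cons w (Fin.cons (w + 2) (fun i : Fin n => a i.succ))) (w + 3)
    (w + 4) (by
      intro i
      refine Fin.cases ?_ (fun i => ?_) i
      · simp only [Fin.cons_zero]; omega
      · simp only [Fin.cons_succ]
        refine Fin.cases ?_ (fun i => ?_) i
        · simp only [Fin.cons_zero]; omega
        · simp only [Fin.cons_succ]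
          exact (ha _).trans (by omega)) (by omega)
  let body : Cmd := .seq ch (.seq (.set w (.var (w + 3)))
    (.seq (.set (w + 2) (.add (.var (w + 2)) .one))
      (.set (w + 1) (.add (.var (w + 1)) (.neg .one)))))
  refine ⟨.seq cg (.seq (.set (w + 1) (.var (a 0))) (.seq (.set (w + 2) .zero)
    (.seq (.loop (w + 1) body) (.set o (.var w))))), fun p hp v hv σ hσ => ?_⟩
  rw [map_add, map_add, eval_X, eval_bind, eval_bind] at hv
  have hy : v 0 < p := by omega
  have hvv : Matrix.vecCons (v 0) (fun i : Fin n => v i.succ) = v := by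
    funext i
    refine Fin.cases ?_ (fun j => ?_) i <;> simp
  -- one round
  have hbody : ∀ j : ℕ, j < v 0 → ∀ τ : ℕ → ZMod p,
      τ w = ((F (Matrix.vecCons j fun i : Fin n => v i.succ) : ℕ) : ZMod p) →
      τ (w + 2) = (j : ZMod p) → (∀ i : Fin n, τ (a i.succ) = (v i.succ : ZMod p)) →
      ∃ τ' : ℕ → ZMod p, Exec p body τ τ' ∧
        τ' w = ((F (Matrix.vecCons (j + 1) fun i : Fin n => v i.succ) : ℕ) : ZMod p) ∧
        τ' (w + 2) = ((j + 1 : ℕ) : ZMod p) ∧ τ' (w + 1) = τ (w + 1) - 1 ∧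
        ∀ r, r < w → τ' r = τ r := by
    intro j hj τ hτ1 hτ2 hτ3
    obtain ⟨τ1, hE, hval, hr⟩ := hch p hp
      (Matrix.vecCons (F (Matrix.vecCons j fun i : Fin n => v i.succ))
        (Matrix.vecCons j fun i : Fin n => v i.succ))
      (by
        refine lt_of_le_of_lt (le_trans (eval_mono Qh fun i => ?_) (Nat.le_add_left _ _)) hv
        refine Fin.cases ?_ (fun i => ?_) i
        · simp only [Matrix.cons_val_zero, Fin.cons_zero]
          refine (hB _).trans (eval_mono B fun i => ?_)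
          refine Fin.cases ?_ (fun i => ?_) i
          · simp only [Matrix.cons_val_zero]; omega
          · simp only [Matrix.cons_val_succ]; exact le_rfl
        · simp only [Matrix.cons_val_succ, Fin.cons_succ, eval_X]
          refine Fin.cases ?_ (fun i => ?_) i
          · simp only [Matrix.cons_val_zero]; omega
          · simp only [Matrix.cons_val_succ]; exact le_rfl) τ
      (by
        intro i
        refine Fin.cases ?_ (fun i => ?_) i
        · simp only [Matrix.cons_val_zero, Fin.cons_zero]; exact hτ1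
        · simp only [Matrix.cons_val_succ, Fin.cons_succ]
          refine Fin.cases ?_ (fun i => ?_) i
          · simp only [Matrix.cons_val_zero, Fin.cons_zero]; exact hτ2
          · simp only [Matrix.cons_val_succ, Fin.cons_succ]; exact hτ3 i)
    refine ⟨_, Exec.seq hE (Exec.seq (Exec.set _ _ _) (Exec.seq (Exec.set _ _ _)
      (Exec.set _ _ _))), ?_, ?_, ?_, ?_⟩
    · simp only [Term.eval]
      rw [Function.update_of_ne (by omega), Function.update_of_ne (by omega),
        Function.update_self, hval, hs]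
    · simp only [Term.eval]
      rw [Function.update_of_ne (by omega), Function.update_self,
        Function.update_of_ne (by omega), hr _ (by omega) (by omega), hτ2]
      push_cast
      rfl
    · simp only [Term.eval]
      rw [Function.update_self, Function.update_of_ne (by omega),
        Function.update_of_ne (by omega), hr _ (by omega) (by omega)]
      ring
    · intro r hrw
      rw [Function.update_of_ne (by omega), Function.update_of_ne (by omega),
        Function.update_of_ne (by omega), hr _ (by omega) (by omega)]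
  -- the loop
  have hloop : ∀ k j : ℕ, j + k = v 0 → ∀ τ : ℕ → ZMod p,
      τ w = ((F (Matrix.vecCons j fun i : Fin n => v i.succ) : ℕ) : ZMod p) →
      τ (w + 1) = (k : ZMod p) →
      τ (w + 2) = (j : ZMod p) → (∀ i : Fin n, τ (a i.succ) = (v i.succ : ZMod p)) →
      ∃ τ' : ℕ → ZMod p, Exec p (.loop (w + 1) body) τ τ' ∧
        τ' w = ((F (Matrix.vecCons (v 0) fun i : Fin n => v i.succ) : ℕ) : ZMod p) ∧
        ∀ r, r < w → τ' r = τ r := by
    intro k
    induction k with
    | zero =>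
      intro j hj τ hτ1 hτ2 hτ3 hτ4
      have : j = v 0 := by omega
      subst this
      exact ⟨τ, Exec.done (by rw [hτ2]; simp), hτ1, fun r _ => rfl⟩
    | succ k ih =>
      intro j hj τ hτ1 hτ2 hτ3 hτ4
      obtain ⟨τ1, hE, hw, hw2, hw1, hr⟩ := hbody j (by omega) τ hτ1 hτ3 hτ4
      obtain ⟨τ2, hE2, hval2, hr2⟩ := ih (j + 1) (by omega) τ1 hw
        (by rw [hw1, hτ2]; push_cast; ring) hw2
        (fun i => by rw [hr _ (ha _)]; exact hτ4 i)
      refine ⟨τ2, Exec.step ?_ hE hE2, hval2, fun r hrw => by rw [hr2 r hrw, hr r hrw]⟩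
      rw [hτ2]
      intro h
      rw [ZMod.natCast_eq_zero_iff] at h
      exact absurd (Nat.le_of_dvd (by omega) h) (by omega)
  obtain ⟨σ1, hE1, hval1, hr1⟩ := hcg p hp (fun i => v i.succ)
    (by simp only [eval_X] at hv; omega) σ (fun i => hσ _)
  set σ2 := Function.update σ1 (w + 1) ((Term.var (a 0)).eval p σ1) with hσ2
  set σ3 := Function.update σ2 (w + 2) (Term.zero.eval p σ2) with hσ3
  have hlow : ∀ r, r < w → σ3 r = σ r := by
    intro r hr
    rw [hσ3, Function.update_of_ne (by omega), hσ2, Function.update_of_ne (by omega),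
      hr1 r (by omega) (by omega)]
  obtain ⟨σ4, hE4, hval4, hr4⟩ := hloop (v 0) 0 (by omega) σ3
    (by rw [hσ3, Function.update_of_ne (by omega), hσ2, Function.update_of_ne (by omega),
          hval1, h0])
    (by
      rw [hσ3, Function.update_of_ne (by omega), hσ2, Function.update_self]
      simp only [Term.eval]
      rw [hr1 _ (by have := ha 0; omega) (by have := ha 0; omega), hσ 0])
    (by rw [hσ3, Function.update_self]; simp [Term.eval])
    (fun i => by rw [hlow _ (ha _)]; exact hσ _)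
  refine ⟨_, Exec.seq hE1 (Exec.seq (Exec.set _ _ _) (Exec.seq (Exec.set _ _ _)
    (Exec.seq hE4 (Exec.set _ _ _)))), ?_, ?_⟩
  · simp only [Term.eval]
    rw [Function.update_self, hval4, hvv]
  · intro r hr hro
    rw [Function.update_of_ne hro, hr4 r hr, hlow r hr]

private theorem comp_e2_aux {n : ℕ} {f : (Fin n → ℕ) → ℕ} (hf : E2 n f) :
    ∃ Q : MvPolynomial (Fin n) ℕ, CompBy f Q := by
  induction hf with
  | zero n =>
    exact ⟨0, compBy_term _ (fun _ => .zero) fun a p v σ _ => by simp [Term.eval]⟩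
  | succ =>
    exact ⟨0, compBy_term _ (fun a => .add (.var (a 0)) .one) fun a p v σ h => by
      simp [Term.eval, h]⟩
  | proj i =>
    exact ⟨0, compBy_term _ (fun a => .var (a i)) fun a p v σ h => by
      simp [Term.eval, h]⟩
  | prod =>
    exact ⟨0, compBy_term _ (fun a => .mul (.add (.var (a 0)) .one) (.add (.var (a 1)) .one))
      fun a p v σ h => by simp [Term.eval, h]⟩
  | @comp n m g hs _ hh ih1 ih2 =>
    obtain ⟨Qg, hQg⟩ := ih1
    choose Qh hQh using ih2
    choose q hq using fun i => (hh i).bounded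
    exact ⟨_, compBy_comp hQg hQh hq⟩
  | limrec _ _ hb hFb h0 hs ih1 ih2 _ =>
    obtain ⟨Qg, hQg⟩ := ih1
    obtain ⟨Qh, hQh⟩ := ih2
    obtain ⟨B, hB⟩ := hb.bounded
    exact ⟨_, compBy_limrec hQg hQh (fun v => (hFb v).trans (hB v)) h0 hs⟩

theorem comp_e2 {n : ℕ} {f : (Fin n → ℕ) → ℕ} (hf : E2 n f) :
    ∃ Q : MvPolynomial (Fin n) ℕ, ∀ (a : Fin n → ℕ) (o w : ℕ), (∀ i, a i < w) → o < w →
      ∃ c : Cmd, ∀ p : ℕ, p.Prime → ∀ v : Fin n → ℕ, MvPolynomial.eval v Q < p →
        ∀ σ : ℕ → ZMod p, (∀ i, σ (a i) = (v i : ZMod p)) →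
          ∃ σ' : ℕ → ZMod p, Exec p c σ σ' ∧ σ' o = (f v : ZMod p) ∧
            ∀ r, r < w → r ≠ o → σ' r = σ r :=
  comp_e2_aux hf

end Pool.Agent.ROrb
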