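import Mathlib
import Pool.Agent.ROrb.Lang

/-!
Flat programs simulate commands.
-/

set_option autoImplicit false

namespace Pool.Agent.ROrb

theorem Cmd.code_length (c : Cmd) : ∀ base : ℕ, (c.code base).length = c.len := by
  induction c with
  | set r t => intro base; rfl
  | seq c d hc hd => intro base; simp [Cmd.code, Cmd.len, hc, hd]
  | loop r c hc => intro base; simp [Cmd.code, Cmd.len, hc]

theorem iter_trans {α : Type*} {f : α → α} {x y z : α} (h1 : ∃ t, f^[t] x = y)
    (h2 : ∃ t, f^[t] y = z) : ∃ t, f^[t] x = z := by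
  obtain ⟨s, hs⟩ := h1
  obtain ⟨t, ht⟩ := h2
  exact ⟨t + s, by rw [Function.iterate_add_apply, hs, ht]⟩

theorem exec_flat {p : ℕ} {P : ℕ → Instr} {c : Cmd} {σ σ' : ℕ → ZMod p} (h : Exec p c σ σ') :
    ∀ base : ℕ, (∀ i, i < c.len → (c.code base)[i]? = some (P (base + i))) →
      ∃ t, (stepF p P)^[t] (base, σ) = (base + c.len, σ') := by
  induction h with
  | set r t σ =>
    intro base hP
    have h0 := hP 0 (by simp [Cmd.len])
    simp only [Cmd.code, List.length_cons, List.getElem?_cons_zero, Option.some.injEq,
      Nat.add_zero] at h0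
    refine ⟨1, ?_⟩
    simp only [Function.iterate_one, stepF, ← h0, Cmd.len, ite_self]
  | @seq c d σ σ' σ'' _ _ ih1 ih2 =>
    intro base hP
    have h1 := ih1 base (by
      intro i hi
      have := hP i (by simp only [Cmd.len]; omega)
      rw [← this, Cmd.code, List.getElem?_append_left (by rw [Cmd.code_length]; exact hi)])
    have h2 := ih2 (base + c.len) (by
      intro i hi
      have := hP (c.len + i) (by simp only [Cmd.len]; omega)
      rw [Cmd.code, List.getElem?_append_right (by rw [Cmd.code_length]; omega),
        Cmd.code_length, Nat.add_sub_cancel_left] at this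
      rw [this, Nat.add_assoc])
    have h3 := iter_trans h1 h2
    simpa only [Cmd.len, Nat.add_assoc] using h3
  | @done r c σ hr =>
    intro base hP
    have h0 := hP 0 (by simp [Cmd.len])
    simp only [Cmd.code, List.getElem?_cons_zero, Option.some.injEq, Nat.add_zero] at h0
    refine ⟨1, ?_⟩
    simp only [Function.iterate_one, stepF, ← h0, Cmd.len, hr, if_true, Term.eval]
    rw [← hr, Function.update_eq_self]
    rfl
  | @step r c σ σ' σ'' hr _ _ ih1 ih2 =>
    intro base hP
    have h0 := hP 0 (by simp [Cmd.len])
    simp only [Cmd.code, List.getElem?_cons_zero, Option.some.injEq, Nat.add_zero] at h0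
    have s0 : ∃ t, (stepF p P)^[t] (base, σ) = (base + 1, σ) := by
      refine ⟨1, ?_⟩
      simp only [Function.iterate_one, stepF, ← h0, hr, if_false, Term.eval,
        Function.update_eq_self]
    have s1 := ih1 (base + 1) (by
      intro i hi
      have := hP (i + 1) (by simp only [Cmd.len]; omega)
      simp only [Cmd.code, List.getElem?_cons_succ] at this
      rw [List.getElem?_append_left (by rw [Cmd.code_length]; exact hi)] at this
      rw [this, Nat.add_assoc, Nat.add_comm 1 i])
    have hl := hP (c.len + 1) (by simp only [Cmd.len]; omega)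
    simp only [Cmd.code, List.getElem?_cons_succ] at hl
    rw [List.getElem?_append_right (by rw [Cmd.code_length]), Cmd.code_length,
      Nat.sub_self, List.getElem?_cons_zero, Option.some.injEq] at hl
    have s2 : ∃ t, (stepF p P)^[t] (base + 1 + c.len, σ') = (base, σ') := by
      refine ⟨1, ?_⟩
      have e : base + 1 + c.len = base + (c.len + 1) := by omega
      simp only [Function.iterate_one, stepF, e, ← hl, ite_self, Term.eval,
        Function.update_eq_self]
    exact iter_trans s0 (iter_trans s1 (iter_trans s2 (ih2 base hP)))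

theorem prog_lt (c : Cmd) (o : ℕ) {i : ℕ} (hi : i < c.len) :
    (c.code 0)[i]? = some (prog c o (0 + i)) := by
  unfold prog
  rw [Nat.zero_add, List.getD_eq_getElem?_getD,
    List.getElem?_append_left (by rw [Cmd.code_length]; exact hi)]
  have : i < (c.code 0).length := by rw [Cmd.code_length]; exact hi
  rw [List.getElem?_eq_getElem this, Option.getD_some]

theorem prog_len (c : Cmd) (o : ℕ) : prog c o c.len = ⟨0, .var 0, o, c.len + 1, c.len + 2⟩ := by
  unfold prog
  rw [List.getD_eq_getElem?_getD, List.getElem?_append_right (by rw [Cmd.code_length]),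
    Cmd.code_length, Nat.sub_self]
  rfl

theorem prog_gt (c : Cmd) (o : ℕ) {q : ℕ} (hq : c.len < q) : prog c o q = ⟨0, .var 0, 0, q, q⟩ := by
  unfold prog
  rw [List.getD_eq_getElem?_getD, List.getElem?_eq_none, Option.getD_none]
  rw [List.length_append, Cmd.code_length]
  simp only [List.length_cons, List.length_nil]
  omega

theorem flat_reach (c : Cmd) (o p : ℕ) {σ σ' : ℕ → ZMod p} (h : Exec p c σ σ') :
    ∃ t, (stepF p (prog c o))^[t] (0, σ) = (c.len, σ') := by
  have := exec_flat (P := prog c o) h 0 (fun i hi => prog_lt c o hi)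
  simpa using this

/-- States with a program counter behind the test instruction do not change. -/
theorem stepF_halt (c : Cmd) (o p : ℕ) {q : ℕ} (hq : c.len < q) (σ : ℕ → ZMod p) (t : ℕ) :
    (stepF p (prog c o))^[t] (q, σ) = (q, σ) := by
  refine Function.iterate_fixed ?_ t
  simp only [stepF, prog_gt c o hq, ite_self, Term.eval, Function.update_eq_self]

/-- The rejecting state is reached exactly if the result is not `0`. -/
theorem flat_reject (c : Cmd) (o p : ℕ) {σ σ' : ℕ → ZMod p} (h : Exec p c σ σ') :
    (∀ t, ((stepF p (prog c o))^[t] (0, σ)).1 ≠ c.len + 2) ↔ σ' o = 0 := by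
  obtain ⟨t₀, ht₀⟩ := flat_reach c o p h
  have h1 : (stepF p (prog c o))^[t₀ + 1] (0, σ) =
      (if σ' o = 0 then c.len + 1 else c.len + 2, σ') := by
    rw [Function.iterate_succ_apply', ht₀]
    simp only [stepF, prog_len, Term.eval, Function.update_eq_self]
  constructor
  · intro H
    by_contra ho
    apply H (t₀ + 1)
    rw [h1, if_neg ho]
  · intro ho t ht
    rw [if_pos ho] at h1
    rcases Nat.lt_or_ge t₀ t with hlt | hge
    · obtain ⟨s, rfl⟩ : ∃ s, t = s + (t₀ + 1) := ⟨t - (t₀ + 1), by omega⟩
      rw [Function.iterate_add_apply, h1, stepF_halt c o p (by omega)] at ht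
      simp at ht
    · obtain ⟨s, rfl⟩ : ∃ s, t₀ = s + t := ⟨t₀ - t, by omega⟩
      rw [Function.iterate_add_apply] at ht₀
      have h2 : (stepF p (prog c o))^[t] (0, σ) =
          (c.len + 2, ((stepF p (prog c o))^[t] (0, σ)).2) := by
        rw [← ht]
      rw [h2, stepF_halt c o p (by omega)] at ht₀
      have := congrArg Prod.fst ht₀
      simp at this

end Pool.Agent.ROrb
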