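import Mathlib

/-!
Polynomial loops: vanishing modulo `m` along the whole orbit is decided by the first steps.
-/

set_option autoImplicit false

namespace Pool.Agent.ROrb

theorem eval_iterate {k : ℕ} (T : Fin k → MvPolynomial (Fin k) ℤ) (h : MvPolynomial (Fin k) ℤ)
    (t : ℕ) : ∀ a : Fin k → ℤ, MvPolynomial.eval a ((MvPolynomial.bind₁ T)^[t] h) =
      MvPolynomial.eval ((fun x i => MvPolynomial.eval x (T i))^[t] a) h := by
  induction t with
  | zero => intro a; rfl
  | succ t ih =>
    intro a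
    rw [Function.iterate_succ_apply', Function.iterate_succ_apply, ← ih]
    generalize (MvPolynomial.bind₁ T)^[t] h = q
    induction q using MvPolynomial.induction_on with
    | C c => simp
    | add p q hp hq => simp [hp, hq]
    | mul_X p i hp => simp [hp]

theorem poly_loop {k : ℕ} (T : Fin k → MvPolynomial (Fin k) ℤ) (h : MvPolynomial (Fin k) ℤ) :
    ∃ B : ℕ, ∀ (m : ℤ) (a : Fin k → ℤ),
      (∀ t, t ≤ B → m ∣ MvPolynomial.eval
        ((fun x i => MvPolynomial.eval x (T i))^[t] a) h) →
      ∀ t, m ∣ MvPolynomial.eval ((fun x i => MvPolynomial.eval x (T i))^[t] a) h := by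
  let H : ℕ → MvPolynomial (Fin k) ℤ := fun t => (MvPolynomial.bind₁ T)^[t] h
  let I : ℕ →o Ideal (MvPolynomial (Fin k) ℤ) :=
    ⟨fun n => Ideal.span (H '' Set.Iic n),
      fun a b hab => Ideal.span_mono (Set.image_mono (Set.Iic_subset_Iic.mpr hab))⟩
  obtain ⟨B, hB⟩ := (monotone_stabilizes_iff_noetherian.mpr
    (inferInstance : IsNoetherianRing (MvPolynomial (Fin k) ℤ))) I
  refine ⟨B, fun m a hm t => ?_⟩
  rw [← eval_iterate]
  have h1 : H t ∈ Ideal.span (H '' Set.Iic B) := by
    have h2 : H t ∈ I (max B t) :=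
      Ideal.subset_span ⟨t, le_max_right B t, rfl⟩
    have h3 := hB (max B t) (le_max_left B t)
    rw [← h3] at h2
    exact h2
  have h4 : Ideal.span (H '' Set.Iic B) ≤
      (Ideal.span {m}).comap (MvPolynomial.eval a) := by
    rw [Ideal.span_le]
    rintro _ ⟨s, hs, rfl⟩
    simp only [SetLike.mem_coe, Ideal.mem_comap, Ideal.mem_span_singleton]
    rw [eval_iterate]
    exact hm s hs
  have h5 := h4 h1
  rw [Ideal.mem_comap, Ideal.mem_span_singleton] at h5
  exact h5

end Pool.Agent.ROrb
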