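import Mathlib
import Pool.Agent.ROrb.Lang
import Pool.Agent.Grz.Matrices
import Pool.Agent.Grz.Iter
import Pool.Agent.Grz.Regressive
import Pool.Agent.InvCF.Def
import Pool.Agent.InvCF.Sched

/-!
Orbits of maps given by terms are computed in `E2`.
-/

set_option autoImplicit false

namespace Pool.Agent.ROrb

open Pool.Agent.Grz

/-- the value of a term, computed with natural numbers modulo `p` -/
private noncomputable def evN {ι : Type} (p : ℕ) (y : ι → ℕ) : Term ι → ℕ
  | .var i => y i % p
  | .zero => 0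
  | .one => 1 % p
  | .add a b => (evN p y a + evN p y b) % p
  | .mul a b => (evN p y a * evN p y b) % p
  | .neg a => (p - evN p y a) % p
  | .inv a => InvCF.minv p (evN p y a)

private theorem evN_lt {ι : Type} {p : ℕ} (hp : 0 < p) (y : ι → ℕ) (t : Term ι) :
    evN p y t < p := by
  cases t with
  | var i => exact Nat.mod_lt _ hp
  | zero => exact hp
  | one => exact Nat.mod_lt _ hp
  | add a b => exact Nat.mod_lt _ hp
  | mul a b => exact Nat.mod_lt _ hp
  | neg a => exact Nat.mod_lt _ hp
  | inv a =>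
    show InvCF.minv p (evN p y a) < p
    rcases InvCF.minv_spec p (evN p y a) with ⟨h, _, _⟩ | ⟨h, _⟩
    · exact h
    · rw [h]
      exact hp

private theorem evN_cast {ι : Type} {p : ℕ} (hp : p.Prime) (y : ι → ℕ) (t : Term ι) :
    (evN p y t : ZMod p) = t.eval p (fun i => (y i : ZMod p)) := by
  induction t with
  | var i =>
    show ((y i % p : ℕ) : ZMod p) = (y i : ZMod p)
    rw [ZMod.natCast_mod]
  | zero =>
    show ((0 : ℕ) : ZMod p) = 0
    exact Nat.cast_zero
  | one =>
    show ((1 % p : ℕ) : ZMod p) = 1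
    rw [ZMod.natCast_mod, Nat.cast_one]
  | add a b iha ihb =>
    show (((evN p y a + evN p y b) % p : ℕ) : ZMod p) = _
    rw [ZMod.natCast_mod, Nat.cast_add, iha, ihb]
    rfl
  | mul a b iha ihb =>
    show (((evN p y a * evN p y b) % p : ℕ) : ZMod p) = _
    rw [ZMod.natCast_mod, Nat.cast_mul, iha, ihb]
    rfl
  | neg a iha =>
    show (((p - evN p y a) % p : ℕ) : ZMod p) = _
    rw [ZMod.natCast_mod, Nat.cast_sub (evN_lt hp.pos y a).le, iha, ZMod.natCast_self, zero_sub]
    rfl
  | inv a iha =>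
    show ((InvCF.minv p (evN p y a) : ℕ) : ZMod p) = _
    rw [InvCF.minv_cast hp, iha]
    rfl

private theorem dfun_evN {n : ℕ} {ι : Type} {P : (Fin n → ℕ) → ℕ} (hP : DFun n P)
    {Y : ι → (Fin n → ℕ) → ℕ} (hY : ∀ i, DFun n (Y i)) (t : Term ι) :
    DFun n (fun v => evN (P v) (fun i => Y i v) t) := by
  induction t with
  | var i => exact InvCF.DFun.mod' (hY i) hP
  | zero => exact DFun.const 0
  | one => exact InvCF.DFun.mod' (DFun.const 1) hP
  | add a b iha ihb => exact InvCF.DFun.mod' (iha.add ihb) hP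
  | mul a b iha ihb => exact InvCF.DFun.mod' (iha.mul ihb) hP
  | neg a iha => exact InvCF.DFun.mod' (hP.sub iha) hP
  | inv a iha => exact InvCF.DFun.minv hP iha

private theorem pair_mono {a b c d : ℕ} (h1 : a ≤ b) (h2 : c ≤ d) : Nat.pair a c ≤ Nat.pair b d := by
  have e1 : Nat.pair a c ≤ Nat.pair b c := by
    rcases h1.lt_or_eq with h | h
    · exact (Nat.pair_lt_pair_left c h).le
    · rw [h]
  have e2 : Nat.pair b c ≤ Nat.pair b d := by
    rcases h2.lt_or_eq with h | h
    · exact (Nat.pair_lt_pair_right b h).le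
    · rw [h]
  exact e1.trans e2

private theorem enc_mono : ∀ (n : ℕ) {u v : Fin n → ℕ}, (∀ i, u i ≤ v i) → enc n u ≤ enc n v
  | 0, _, _, _ => le_refl _
  | n + 1, _, _, h => pair_mono (h 0) (enc_mono n fun i => h i.succ)

/-- the step on codes; the parameters are `p` and the start vector -/
private noncomputable def stp {k : ℕ} (T : Fin (k + 1) → Term (Fin (k + 1))) (c : ℕ)
    (v : Fin (k + 2) → ℕ) : ℕ :=
  if v 0 = 0 then 0 else enc (k + 1) (fun i => evN (v 0) (fun j => dec (k + 1) c j) (T i))

private theorem stp_le {k : ℕ} (T : Fin (k + 1) → Term (Fin (k + 1))) (c : ℕ)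
    (v : Fin (k + 2) → ℕ) : stp T c v ≤ enc (k + 1) (fun _ => v 0) := by
  unfold stp
  split_ifs with h
  · exact Nat.zero_le _
  · exact enc_mono _ fun i => (evN_lt (Nat.pos_of_ne_zero h) _ _).le

private theorem dfun_stp {k : ℕ} (T : Fin (k + 1) → Term (Fin (k + 1))) :
    DFun (k + 2 + 1) (fun w => stp T (w 0) (fun i => w i.succ)) := by
  unfold stp
  have hp : DFun (k + 2 + 1) (fun w => w (Fin.succ 0)) := DFun.proj _
  have hc : DFun (k + 2 + 1) (fun w => w 0) := DFun.proj 0
  exact DFun.ite (Delta0.eqFun hp (DFun.const 0)) (DFun.const 0)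
    (DFun.enc fun i => dfun_evN hp (fun j => DFun.dec hc j) (T i))

private theorem iterate_bdd (f : ℕ → ℕ) (b : ℕ) (hf : ∀ x, f x ≤ b) (x : ℕ) :
    ∀ t, ∃ t', t' ≤ b + 1 ∧ f^[t] x = f^[t'] x := by
  have hle : ∀ t, f^[t + 1] x ≤ b := by
    intro t
    rw [Function.iterate_succ_apply']
    exact hf _
  obtain ⟨i, hi, j, hj, hij, he⟩ : ∃ i, 1 ≤ i ∧ ∃ j, j ≤ b + 2 ∧ i < j ∧ f^[i] x = f^[j] x := by
    have hcard : (Finset.range (b + 1)).card < (Finset.range (b + 2)).card := by simp
    obtain ⟨a, ha, c, hc, hac, heq⟩ := Finset.exists_ne_map_eq_of_card_lt_of_maps_to hcard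
      (f := fun t => f^[t + 1] x) (fun t _ => by
        have := hle t
        simp only [Finset.coe_range, Set.mem_Iio]
        omega)
    simp only [Finset.mem_range] at ha hc
    rcases Nat.lt_or_gt_of_ne hac with h | h
    · exact ⟨a + 1, by omega, c + 1, by omega, by omega, heq⟩
    · exact ⟨c + 1, by omega, a + 1, by omega, by omega, heq.symm⟩
  intro t
  induction t using Nat.strong_induction_on with
  | _ t ih =>
    by_cases ht : t ≤ b + 1
    · exact ⟨t, ht, rfl⟩
    · obtain ⟨t', ht', he'⟩ := ih (t - (j - i)) (by omega)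
      refine ⟨t', ht', ?_⟩
      rw [← he']
      have e1 : t = (t - j) + j := by omega
      have e2 : t - (j - i) = (t - j) + i := by omega
      rw [e2, Function.iterate_add_apply, he, ← Function.iterate_add_apply, ← e1]

theorem orbit_e2Star {k : ℕ} (T : Fin (k + 1) → Term (Fin (k + 1))) :
    E2Star (k + 2) (fun w => (w 0).Prime ∧
      ∀ t, (stepV T (w 0))^[t] (fun i => (w i.succ : ZMod (w 0))) (Fin.last k) = 0) := by
  -- the start code and the bound
  have hS : DFun (k + 2) (fun v => enc (k + 1) (fun i => v i.succ)) :=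
    DFun.enc fun i => DFun.proj i.succ
  have hb : DFun (k + 2) (fun v => enc (k + 1) (fun _ => v 0)) :=
    DFun.enc fun _ => DFun.proj 0
  have hC : E2 (k + 2 + 1) (fun w => (fun x => stp T x (fun i => w i.succ))^[w 0]
      ((fun v : Fin (k + 2) → ℕ => enc (k + 1) (fun i => v i.succ)) (fun i => w i.succ))) := by
    refine E2.iterate (n := k + 2) (P := fun x v => stp T x v)
      (S := fun v => enc (k + 1) (fun i => v i.succ))
      (B := fun v => enc (k + 1) (fun i => v i.succ) + enc (k + 1) (fun _ => v 0))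
      (DFun.e2 (dfun_stp T)) (DFun.e2 hS) (DFun.e2 (hS.add hb)) ?_
    intro t v
    cases t with
    | zero => exact Nat.le_add_right _ _
    | succ t =>
      rw [Function.iterate_succ_apply']
      exact (stp_le T _ v).trans (Nat.le_add_left _ _)
  have hlast : E2 2 (fun v => dec (k + 1) (v 0) (Fin.last k) % v 1) :=
    DFun.e2 (InvCF.DFun.mod' (DFun.dec (DFun.proj 0) _) (DFun.proj 1))
  have hV := E2.comp2 (g := fun c p => dec (k + 1) c (Fin.last k) % p) hlast hC
    (E2.proj (n := k + 2 + 1) (Fin.succ 0))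
  have hball := E2Star.ball (n := k + 2) (b := fun v => enc (k + 1) (fun _ => v 0) + 1)
    (P := fun t v => dec (k + 1) ((fun x => stp T x v)^[t] (enc (k + 1) (fun i => v i.succ)))
      (Fin.last k) % v 0 = 0) ((DFun.e2 hb).add (E2.const 1)) (E2Star.eqFun hV (E2.const 0))
  refine ((InvCF.delta0_prime (DFun.proj (n := k + 2) 0)).e2Star.and hball).of_iff ?_
  intro w
  refine and_congr_right fun hp => ?_
  have key : ∀ t, ∀ i, ((dec (k + 1) ((fun x => stp T x w)^[t]
      (enc (k + 1) (fun i => w i.succ))) i : ℕ) : ZMod (w 0))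
      = (stepV T (w 0))^[t] (fun i => (w i.succ : ZMod (w 0))) i := by
    intro t
    induction t with
    | zero =>
      intro i
      show ((dec (k + 1) (enc (k + 1) (fun i => w i.succ)) i : ℕ) : ZMod (w 0)) = _
      rw [dec_enc]
      rfl
    | succ t ih =>
      intro i
      rw [Function.iterate_succ_apply', Function.iterate_succ_apply']
      have h1 : stp T ((fun x => stp T x w)^[t] (enc (k + 1) (fun i => w i.succ))) w
          = enc (k + 1) (fun i => evN (w 0) (fun j => dec (k + 1) ((fun x => stp T x w)^[t]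
            (enc (k + 1) (fun i => w i.succ))) j) (T i)) := if_neg hp.ne_zero
      show ((dec (k + 1) (stp T ((fun x => stp T x w)^[t]
        (enc (k + 1) (fun i => w i.succ))) w) i : ℕ) : ZMod (w 0)) = _
      rw [h1, dec_enc, evN_cast hp]
      show _ = (T i).eval (w 0) _
      congr 1
      funext j
      exact ih j
  have key2 : ∀ t, (stepV T (w 0))^[t] (fun i => (w i.succ : ZMod (w 0))) (Fin.last k) = 0 ↔
      dec (k + 1) ((fun x => stp T x w)^[t] (enc (k + 1) (fun i => w i.succ)))
      (Fin.last k) % w 0 = 0 := by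
    intro t
    rw [← key t, ZMod.natCast_eq_zero_iff, Nat.dvd_iff_mod_eq_zero]
  constructor
  · intro h t _
    exact (key2 t).1 (h t)
  · intro h t
    rw [key2]
    obtain ⟨t', ht', he⟩ := iterate_bdd (fun x => stp T x w) (enc (k + 1) (fun _ => w 0))
      (fun x => stp_le T x w) (enc (k + 1) (fun i => w i.succ)) t
    rw [he]
    exact h t' ht'

end Pool.Agent.ROrb
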