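import Mathlib
import Pool.Agent.ROrb.Lang

/-!
A flat program is a map of `(ZMod p)^k` given by terms.
-/

set_option autoImplicit false

namespace Pool.Agent.ROrb

namespace Vec

/-- Renaming of the variables of a term. -/
def ren {ι κ : Type} (g : ι → κ) : Term ι → Term κ
  | .var i => .var (g i)
  | .zero => .zero
  | .one => .one
  | .add a b => .add (ren g a) (ren g b)
  | .mul a b => .mul (ren g a) (ren g b)
  | .neg a => .neg (ren g a)
  | .inv a => .inv (ren g a)

theorem ren_eval {ι κ : Type} (g : ι → κ) (p : ℕ) (x : κ → ZMod p) : ∀ t : Term ι,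
    (ren g t).eval p x = t.eval p (fun i => x (g i))
  | .var i => rfl
  | .zero => rfl
  | .one => rfl
  | .add a b => by simp only [ren, Term.eval, ren_eval g p x a, ren_eval g p x b]
  | .mul a b => by simp only [ren, Term.eval, ren_eval g p x a, ren_eval g p x b]
  | .neg a => by simp only [ren, Term.eval, ren_eval g p x a]
  | .inv a => by simp only [ren, Term.eval, ren_eval g p x a]

/-- A bound of the variables of a term. -/
def bd : Term ℕ → ℕ
  | .var i => i + 1
  | .zero => 0
  | .one => 0
  | .add a b => max (bd a) (bd b)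
  | .mul a b => max (bd a) (bd b)
  | .neg a => bd a
  | .inv a => bd a

theorem eval_congr (p : ℕ) (x y : ℕ → ZMod p) : ∀ t : Term ℕ, (∀ i, i < bd t → x i = y i) →
    t.eval p x = t.eval p y
  | .var i, h => h i (Nat.lt_succ_self i)
  | .zero, _ => rfl
  | .one, _ => rfl
  | .add a b, h => by
    simp only [Term.eval]
    rw [eval_congr p x y a fun i hi => h i (lt_of_lt_of_le hi (le_max_left _ _)),
      eval_congr p x y b fun i hi => h i (lt_of_lt_of_le hi (le_max_right _ _))]
  | .mul a b, h => by
    simp only [Term.eval]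
    rw [eval_congr p x y a fun i hi => h i (lt_of_lt_of_le hi (le_max_left _ _)),
      eval_congr p x y b fun i hi => h i (lt_of_lt_of_le hi (le_max_right _ _))]
  | .neg a, h => by
    simp only [Term.eval]
    rw [eval_congr p x y a h]
  | .inv a, h => by
    simp only [Term.eval]
    rw [eval_congr p x y a h]

/-- Numerals. -/
def num {ι : Type} : ℕ → Term ι
  | 0 => .zero
  | q + 1 => .add (num q) .one

theorem num_eval {ι : Type} (p : ℕ) (x : ι → ZMod p) : ∀ q : ℕ, (num q).eval p x = (q : ZMod p)
  | 0 => by simp [num, Term.eval]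
  | q + 1 => by simp [num, Term.eval, num_eval p x q]

/-- Finite sums. -/
def sumT {ι : Type} (f : ℕ → Term ι) : ℕ → Term ι
  | 0 => .zero
  | q + 1 => .add (sumT f q) (f q)

theorem sumT_eval {ι : Type} (p : ℕ) (x : ι → ZMod p) (f : ℕ → Term ι) : ∀ q : ℕ,
    (sumT f q).eval p x = ∑ j ∈ Finset.range q, (f j).eval p x
  | 0 => by simp [sumT, Term.eval]
  | q + 1 => by rw [Finset.sum_range_succ, ← sumT_eval p x f q]; rfl

/-- The indicator of equality. -/
def ind {ι : Type} (a b : Term ι) : Term ι :=
  .add .one (.neg (.mul (.add a (.neg b)) (.inv (.add a (.neg b)))))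

theorem ind_eval {ι : Type} (p : ℕ) [Fact p.Prime] (x : ι → ZMod p) (a b : Term ι) :
    (ind a b).eval p x = if a.eval p x = b.eval p x then 1 else 0 := by
  simp only [ind, Term.eval]
  split_ifs with h
  · rw [h]
    simp
  · rw [mul_inv_cancel₀]
    · simp
    · intro h1
      apply h
      rwa [← sub_eq_add_neg, sub_eq_zero] at h1

theorem code_length (c : Cmd) : ∀ base, (c.code base).length = c.len := by
  induction c with
  | set r t => intro base; rfl
  | seq c d ihc ihd => intro base; simp [Cmd.code, Cmd.len, ihc, ihd]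
  | loop r c ih => intro base; simp [Cmd.code, Cmd.len, ih]

theorem code_le (c : Cmd) : ∀ base, ∀ I ∈ c.code base, I.a ≤ base + c.len ∧ I.b ≤ base + c.len := by
  induction c with
  | set r t =>
    intro base I hI
    simp only [Cmd.code, List.mem_singleton] at hI
    subst hI
    exact ⟨le_rfl, le_rfl⟩
  | seq c d ihc ihd =>
    intro base I hI
    simp only [Cmd.code, List.mem_append] at hI
    simp only [Cmd.len]
    rcases hI with hI | hI
    · have := ihc base I hI
      omega
    · have := ihd _ I hI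
      omega
  | loop r c ih =>
    intro base I hI
    simp only [Cmd.code, List.mem_cons, List.mem_append, List.not_mem_nil, or_false] at hI
    simp only [Cmd.len]
    rcases hI with hI | hI | hI
    · subst hI
      simp only
      omega
    · have := ih _ I hI
      omega
    · subst hI
      simp only
      omega

theorem prog_le (c : Cmd) (o q : ℕ) (hq : q ≤ c.len + 2) :
    (prog c o q).a ≤ c.len + 2 ∧ (prog c o q).b ≤ c.len + 2 := by
  unfold prog
  rw [List.getD_eq_getElem?_getD]
  by_cases h : q < (c.code 0 ++ ([⟨0, .var 0, o, c.len + 1, c.len + 2⟩] : List Instr)).length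
  · rw [List.getElem?_eq_getElem h, Option.getD_some]
    have hmem := List.getElem_mem h
    rw [List.mem_append] at hmem
    rcases hmem with h1 | h1
    · have := code_le c 0 _ h1
      omega
    · rw [List.mem_singleton] at h1
      rw [h1]
      simp only
      omega
  · rw [List.getElem?_eq_none (not_lt.1 h), Option.getD_none]
    exact ⟨hq, hq⟩

section

variable (P : ℕ → Instr) (n K' L : ℕ)

/-- The variable of the vector which belongs to a register. -/
def gI (i : ℕ) : Fin (n + (K' + 1) + 1) := if h : i < n + K' then ⟨i, by omega⟩ else ⟨0, by omega⟩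

/-- The coordinate of the program counter. -/
def pcI : Fin (n + (K' + 1) + 1) := ⟨n + K', by omega⟩

/-- The vector of a state. -/
def V (p q : ℕ) (σ : ℕ → ZMod p) (f : ZMod p) : Fin (n + (K' + 1) + 1) → ZMod p :=
  fun i => if (i : ℕ) < n + K' then σ i else if (i : ℕ) = n + K' then (q : ZMod p) else f

/-- The terms. -/
def TT (i : Fin (n + (K' + 1) + 1)) : Term (Fin (n + (K' + 1) + 1)) :=
  if (i : ℕ) < n + K' then
    sumT (fun q => .mul (ind (.var (pcI n K')) (num q))
      (if (P q).r = i then ren (gI n K') (P q).t else .var i)) (L + 3)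
  else if (i : ℕ) = n + K' then
    sumT (fun q => .mul (ind (.var (pcI n K')) (num q))
      (.add (.mul (ind (.var (gI n K' (P q).s)) .zero) (num (P q).a))
        (.mul (.add .one (.neg (ind (.var (gI n K' (P q).s)) .zero))) (num (P q).b)))) (L + 3)
  else ind (.var (pcI n K')) (num (L + 2))

theorem V_gI (p q : ℕ) (σ : ℕ → ZMod p) (f : ZMod p) (i : ℕ) (hi : i < n + K') :
    V n K' p q σ f (gI n K' i) = σ i := by
  unfold V gI
  rw [dif_pos hi, if_pos hi]

theorem V_pcI (p q : ℕ) (σ : ℕ → ZMod p) (f : ZMod p) :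
    V n K' p q σ f (pcI n K') = (q : ZMod p) := by
  unfold V pcI
  rw [if_neg (by simp), if_pos rfl]

theorem step_V (p : ℕ) [Fact p.Prime] (hp : L + 3 < p)
    (hr : ∀ q, q < L + 3 → (P q).r < n + K' ∧ (P q).s < n + K' ∧ bd (P q).t ≤ n + K')
    (q : ℕ) (hq : q ≤ L + 2) (σ : ℕ → ZMod p) (f : ZMod p) :
    stepV (TT P n K' L) p (V n K' p q σ f) =
      V n K' p (stepF p P (q, σ)).1 (stepF p P (q, σ)).2 (if q = L + 2 then 1 else 0) := by
  have hcast : ∀ j, j < L + 3 → ((q : ZMod p) = (j : ZMod p) ↔ j = q) := by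
    intro j hj
    constructor
    · intro h
      rw [ZMod.natCast_eq_natCast_iff'] at h
      rw [Nat.mod_eq_of_lt (by omega), Nat.mod_eq_of_lt (by omega)] at h
      exact h.symm
    · rintro rfl
      rfl
  have hind : ∀ j, j < L + 3 → (ind (.var (pcI n K')) (num j)).eval p (V n K' p q σ f) =
      if j = q then 1 else 0 := by
    intro j hj
    rw [ind_eval]
    simp only [Term.eval, num_eval, V_pcI, hcast j hj]
  have hsum : ∀ g : ℕ → Term (Fin (n + (K' + 1) + 1)),
      (sumT (fun q => .mul (ind (.var (pcI n K')) (num q)) (g q)) (L + 3)).eval p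
        (V n K' p q σ f) = (g q).eval p (V n K' p q σ f) := by
    intro g
    rw [sumT_eval]
    rw [Finset.sum_eq_single q]
    · simp only [Term.eval]
      rw [hind q (by omega), if_pos rfl, one_mul]
    · intro j hj hjq
      simp only [Term.eval]
      rw [hind j (Finset.mem_range.1 hj), if_neg hjq, zero_mul]
    · intro h
      exact absurd (Finset.mem_range.2 (by omega)) h
  obtain ⟨h1, h2, h3⟩ := hr q (by omega)
  funext i
  simp only [stepV, TT]
  by_cases hi : (i : ℕ) < n + K'
  · rw [if_pos hi, hsum]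
    simp only [V, stepF]
    rw [if_pos hi]
    by_cases hri : (P q).r = i
    · rw [if_pos hri, ren_eval, hri, Function.update_self]
      apply eval_congr
      intro j hj
      exact V_gI n K' p q σ f j (by omega)
    · rw [if_neg hri, Function.update_of_ne (Ne.symm hri)]
      simp only [Term.eval, V]
      rw [if_pos hi]
  · rw [if_neg hi]
    by_cases hi2 : (i : ℕ) = n + K'
    · rw [if_pos hi2, hsum]
      simp only [V, stepF]
      rw [if_neg hi, if_pos hi2]
      have h4 : (ind (.var (gI n K' (P q).s)) .zero).eval p (V n K' p q σ f) =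
          if σ (P q).s = 0 then 1 else 0 := by
        rw [ind_eval]
        simp only [Term.eval, V_gI n K' p q σ f _ h2]
      have h5 : ∀ a b c d : Term (Fin (n + (K' + 1) + 1)), ∀ x,
          (Term.add (.mul a b) (.mul (.add .one (.neg c)) d)).eval p x =
            a.eval p x * b.eval p x + (1 + - c.eval p x) * d.eval p x := fun _ _ _ _ _ => rfl
      have h6 := h5 (ind (.var (gI n K' (P q).s)) .zero) (num (P q).a)
        (ind (.var (gI n K' (P q).s)) .zero) (num (P q).b) (V n K' p q σ f)
      rw [h4, num_eval, num_eval] at h6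
      rw [h6]
      split_ifs <;> simp
    · rw [if_neg hi2]
      simp only [V]
      rw [if_neg hi, if_neg hi2]
      rw [hind (L + 2) (by omega)]
      simp only [eq_comm]

theorem iter_V (p : ℕ) [Fact p.Prime] (hp : L + 3 < p)
    (hr : ∀ q, q < L + 3 → (P q).r < n + K' ∧ (P q).s < n + K' ∧ bd (P q).t ≤ n + K')
    (hab : ∀ q, q ≤ L + 2 → (P q).a ≤ L + 2 ∧ (P q).b ≤ L + 2)
    (σ : ℕ → ZMod p) : ∀ t : ℕ,
    ((stepF p P)^[t] (0, σ)).1 ≤ L + 2 ∧
    ∃ f : ZMod p, (stepV (TT P n K' L) p)^[t] (V n K' p 0 σ 0) =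
      V n K' p ((stepF p P)^[t] (0, σ)).1 ((stepF p P)^[t] (0, σ)).2 f ∧
      ((t = 0 ∧ f = 0) ∨ ∃ t', t = t' + 1 ∧
        f = if ((stepF p P)^[t'] (0, σ)).1 = L + 2 then 1 else 0)
  | 0 => ⟨Nat.zero_le _, 0, rfl, Or.inl ⟨rfl, rfl⟩⟩
  | t + 1 => by
    obtain ⟨h1, f, h2, -⟩ := iter_V p hp hr hab σ t
    rw [Function.iterate_succ_apply', Function.iterate_succ_apply', h2]
    set x := (stepF p P)^[t] (0, σ) with hx
    refine ⟨?_, _, step_V P n K' L p hp hr x.1 h1 x.2 f, Or.inr ⟨t, rfl, ?_⟩⟩
    · have := hab x.1 h1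
      simp only [stepF]
      split_ifs
      · exact this.1
      · exact this.2
    · rw [← hx]

end

end Vec

open Vec in
theorem vec_main (c : Cmd) (o n : ℕ) :
    ∃ (m : ℕ) (T : Fin (n + m + 1) → Term (Fin (n + m + 1))), ∀ p : ℕ, p.Prime → c.len + 3 < p →
      ∀ v : Fin n → ℕ,
        ((∀ t, ((stepV T p)^[t] (pad m p v)) (Fin.last (n + m)) = 0) ↔
        ∀ t, ((stepF p (prog c o))^[t] (0, regs p v)).1 ≠ c.len + 2) := by
  set P := prog c o with hP
  set K' : ℕ := (Finset.range (c.len + 3)).sup
    (fun q => max (max ((P q).r + 1) ((P q).s + 1)) (bd (P q).t)) with hK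
  have hr : ∀ q, q < c.len + 3 → (P q).r < n + K' ∧ (P q).s < n + K' ∧ bd (P q).t ≤ n + K' := by
    intro q hq
    have h1 : max (max ((P q).r + 1) ((P q).s + 1)) (bd (P q).t) ≤ K' := by
      rw [hK]
      exact Finset.le_sup (f := fun q => max (max ((P q).r + 1) ((P q).s + 1)) (bd (P q).t))
        (Finset.mem_range.2 hq)
    have h2 := le_max_left (max ((P q).r + 1) ((P q).s + 1)) (bd (P q).t)
    have h3 := le_max_right (max ((P q).r + 1) ((P q).s + 1)) (bd (P q).t)
    have h4 := le_max_left ((P q).r + 1) ((P q).s + 1)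
    have h5 := le_max_right ((P q).r + 1) ((P q).s + 1)
    omega
  refine ⟨K' + 1, TT P n K' c.len, fun p hp hL v => ?_⟩
  have : Fact p.Prime := ⟨hp⟩
  have hpad : pad (K' + 1) p v = V n K' p 0 (regs p v) 0 := by
    funext i
    simp only [pad, V, regs]
    by_cases h1 : (i : ℕ) < n
    · rw [dif_pos h1, if_pos (by omega)]
    · rw [dif_neg h1]
      split_ifs <;> simp
  have hlast : ∀ (q : ℕ) (σ : ℕ → ZMod p) (f : ZMod p),
      V n K' p q σ f (Fin.last (n + (K' + 1))) = f := by
    intro q σ f
    simp only [V, Fin.val_last]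
    rw [if_neg (by omega), if_neg (by omega)]
  have hit := iter_V P n K' c.len p hL hr (fun q hq => prog_le c o q hq) (regs p v)
  rw [hpad]
  constructor
  · intro h t ht
    obtain ⟨-, f, h2, h3⟩ := hit (t + 1)
    have h4 := h (t + 1)
    rw [h2, hlast] at h4
    rcases h3 with ⟨h5, -⟩ | ⟨t', h5, h6⟩
    · omega
    · obtain rfl : t = t' := by omega
      rw [if_pos ht] at h6
      rw [h6] at h4
      exact one_ne_zero h4
  · intro h t
    obtain ⟨-, f, h2, h3⟩ := hit t
    rw [h2, hlast]
    rcases h3 with ⟨-, h6⟩ | ⟨t', -, h6⟩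
    · exact h6
    · rw [if_neg (h t')] at h6
      exact h6

end Pool.Agent.ROrb
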